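import Pool.Agent.P.MP_dee2e2_lc.X.Upper
import Pool.Agent.P.MP_dee2e2_lc.X.Lower

open Pool.Agent.P.MP_dee2e2_lc in
/-- The optimal deterministic competitive ratio of All-or-One Paging with `k` slots is exactly
`2k - 1`, and it is attained. -/
theorem Pool.Agent.Results.MP_dee2e2_lc.ExactRatio.result (k : ℕ) (hk : 1 ≤ k) (P : Type)
    [Infinite P] (C₀ : Cache k P) :
    IsLeast {c : ℝ | ∃ A : OnlineAlg k P, Competitive C₀ A c} (2 * (k : ℝ) - 1) := by
  refine ⟨X.upper k hk P C₀, ?_⟩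
  rintro c ⟨A, hA⟩
  exact X.lower hk (Fin.valEmbedding.trans (Infinite.natEmbedding P)) C₀ A c hA
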